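import Pool.Agent.Lib.MP_7a6e05_lc.Defs

/-!
Translation of the model to task sequences given by functions on `ℕ`.
-/

open Finset

namespace Pool.Agent.Lib.MP_7a6e05_lc

variable {n : ℕ}

/-- The first `N` weights of `w`, as a list. -/
def pre (w : ℕ → ℝ) (N : ℕ) : List ℝ := (List.range N).map w

theorem length_pre (w : ℕ → ℝ) (N : ℕ) : (pre w N).length = N := by simp [pre]

theorem take_pre (w : ℕ → ℝ) {j N : ℕ} (h : j ≤ N) : (pre w N).take j = pre w j := by
  rw [pre, pre, ← List.map_take, List.take_range, min_eq_left h]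

theorem eq_pre (σ : List ℝ) : σ = pre (fun j => σ.getD j 0) σ.length := by
  apply List.ext_getElem
  · simp [pre]
  · intro i h1 h2
    simp [pre, List.getElem?_eq_getElem h1]

theorem pre_congr {w w' : ℕ → ℝ} {N : ℕ} (h : ∀ j < N, w j = w' j) : pre w N = pre w' N :=
  List.map_congr_left fun j hj => h j (List.mem_range.mp hj)

/-- Total weight of the first `N` tasks placed on machine `i`. -/
noncomputable def work (w : ℕ → ℝ) (α : ℕ → Fin (n + 1)) (N : ℕ) (i : Fin (n + 1)) : ℝ :=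
  ∑ j ∈ range N, if α j = i then w j else 0

theorem makespan_pre (v : Fin (n + 1) → ℝ) (w : ℕ → ℝ) (N : ℕ)
    (a : Fin (pre w N).length → Fin (n + 1)) (α : ℕ → Fin (n + 1)) (h : ∀ j, a j = α j) :
    makespan v (pre w N) a = ⨆ i, work w α N i / v i := by
  unfold makespan work
  congr 1
  funext i
  congr 1
  have : ∀ j : Fin (pre w N).length, (if a j = i then (pre w N).get j else 0) =
      (fun j : ℕ => if α j = i then w j else 0) j := by
    intro j
    simp [h j, pre]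
  rw [Finset.sum_congr rfl fun j _ => this j, Fin.sum_univ_eq_sum_range
    (fun j : ℕ => if α j = i then w j else 0), length_pre]

theorem le_iSup_load (v : Fin (n + 1) → ℝ) (W : Fin (n + 1) → ℝ) (i : Fin (n + 1)) :
    W i / v i ≤ ⨆ i, W i / v i :=
  le_ciSup (f := fun i => W i / v i) (Set.finite_range _).bddAbove i

theorem work_nonneg {w : ℕ → ℝ} {α : ℕ → Fin (n + 1)} {N : ℕ} (hw : ∀ j < N, 0 ≤ w j)
    (i : Fin (n + 1)) : 0 ≤ work w α N i :=
  sum_nonneg fun j hj => by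
    split_ifs
    · exact hw j (mem_range.mp hj)
    · exact le_rfl

theorem work_mono {w : ℕ → ℝ} {α : ℕ → Fin (n + 1)} {M N : ℕ} (h : M ≤ N)
    (hw : ∀ j < N, 0 ≤ w j) (i : Fin (n + 1)) : work w α M i ≤ work w α N i :=
  sum_le_sum_of_subset_of_nonneg (range_subset_range.mpr h) fun j hj _ => by
    split_ifs
    · exact hw j (mem_range.mp hj)
    · exact le_rfl

theorem work_succ (w : ℕ → ℝ) (α : ℕ → Fin (n + 1)) (N : ℕ) (i : Fin (n + 1)) :
    work w α (N + 1) i = work w α N i + if α N = i then w N else 0 :=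
  sum_range_succ _ _

theorem le_work {w : ℕ → ℝ} {α : ℕ → Fin (n + 1)} {j N : ℕ} (h : j < N)
    (hw : ∀ j < N, 0 ≤ w j) : w j ≤ work w α N (α j) := by
  have := single_le_sum (f := fun l => if α l = α j then w l else 0) (s := range N)
    (fun l hl => by
      split_ifs
      · exact hw l (mem_range.mp hl)
      · exact le_rfl) (mem_range.mpr h)
  simpa [work] using this

theorem cost_pre (A : Alg) (v : Fin (n + 1) → ℝ) (w : ℕ → ℝ) (N : ℕ) :
    cost A v (pre w N) = ⨆ i, work w (fun j => A n v (pre w (j + 1))) N i / v i := by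
  refine makespan_pre v w N _ _ fun j => ?_
  have : (j : ℕ) < N := j.2.trans_eq (length_pre w N)
  rw [take_pre w (by omega)]

theorem opt_le (v : Fin (n + 1) → ℝ) (w : ℕ → ℝ) (N : ℕ) (α : ℕ → Fin (n + 1)) :
    opt v (pre w N) ≤ ⨆ i, work w α N i / v i := by
  rw [← makespan_pre v w N (fun j => α j) α fun _ => rfl]
  exact ciInf_le (Set.finite_range _).bddBelow _

theorem opt_le_of {v : Fin (n + 1) → ℝ} (hv : ∀ i, 0 < v i) {w : ℕ → ℝ} {N : ℕ}
    {α : ℕ → Fin (n + 1)} {C : ℝ} (h : ∀ i, work w α N i ≤ C * v i) : opt v (pre w N) ≤ C :=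
  (opt_le v w N α).trans (ciSup_le fun i => (div_le_iff₀ (hv i)).mpr (h i))

theorem exists_opt {v : Fin (n + 1) → ℝ} (hv : ∀ i, 0 < v i) (w : ℕ → ℝ) (N : ℕ) :
    ∃ α : ℕ → Fin (n + 1), ∀ i, work w α N i ≤ opt v (pre w N) * v i := by
  obtain ⟨a, ha⟩ := exists_eq_ciInf_of_finite (f := makespan v (pre w N))
  refine ⟨fun j => if h : j < (pre w N).length then a ⟨j, h⟩ else 0, fun i => ?_⟩
  rw [← div_le_iff₀ (hv i), opt, ← ha, makespan_pre v w N a
    (fun j => if h : j < (pre w N).length then a ⟨j, h⟩ else 0) (fun j => by simp)]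
  exact le_iSup_load v _ i

theorem opt_nonneg {v : Fin (n + 1) → ℝ} (hv : ∀ i, 0 < v i) {w : ℕ → ℝ} {N : ℕ}
    (hw : ∀ j < N, 0 ≤ w j) : 0 ≤ opt v (pre w N) := by
  obtain ⟨α, hα⟩ := exists_opt hv w N
  exact nonneg_of_mul_nonneg_left ((work_nonneg hw 0).trans (hα 0)) (hv 0)

theorem opt_mono {v : Fin (n + 1) → ℝ} (hv : ∀ i, 0 < v i) {w : ℕ → ℝ} {M N : ℕ} (h : M ≤ N)
    (hw : ∀ j < N, 0 ≤ w j) : opt v (pre w M) ≤ opt v (pre w N) := by
  obtain ⟨α, hα⟩ := exists_opt hv w N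
  exact opt_le_of hv fun i => (work_mono h hw i).trans (hα i)

theorem opt_pos {v : Fin (n + 1) → ℝ} (hv : ∀ i, 0 < v i) {w : ℕ → ℝ} {N : ℕ}
    (hw : ∀ j < N + 1, 0 < w j) : 0 < opt v (pre w (N + 1)) := by
  obtain ⟨α, hα⟩ := exists_opt hv w (N + 1)
  have h1 := le_work (α := α) (Nat.lt_succ_self N) fun j hj => (hw j hj).le
  exact (mul_pos_iff_of_pos_right (hv _)).mp
    ((hw N (Nat.lt_succ_self N)).trans_le (h1.trans (hα _)))

theorem sum_work (w : ℕ → ℝ) (α : ℕ → Fin (n + 1)) (N : ℕ) (K : Finset (Fin (n + 1))) :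
    ∑ i ∈ K, work w α N i = ∑ j ∈ range N, if α j ∈ K then w j else 0 := by
  unfold work
  rw [sum_comm]
  exact sum_congr rfl fun j _ => by simp [sum_ite_eq]

end Pool.Agent.Lib.MP_7a6e05_lc
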