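import Pool.Agent.Lib.MP_7a6e05_lc.Basic

/-!
Cutting `ℕ` into consecutive blocks of given sizes, and a greedy bound on the optimum.
-/

open Finset

namespace Pool.Agent.Lib.MP_7a6e05_lc

/-- Total size of the first `t` blocks. -/
def psum (c : ℕ → ℕ) (t : ℕ) : ℕ := ∑ s ∈ range t, c s

/-- The block containing `j`. -/
noncomputable def blk (c : ℕ → ℕ) (j : ℕ) : ℕ := sInf {t | j < psum c (t + 1)}

theorem psum_succ (c : ℕ → ℕ) (t : ℕ) : psum c (t + 1) = psum c t + c t := sum_range_succ _ _

theorem psum_mono (c : ℕ → ℕ) {s t : ℕ} (h : s ≤ t) : psum c s ≤ psum c t :=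
  sum_le_sum_of_subset (range_subset_range.mpr h)

theorem le_psum {c : ℕ → ℕ} (hc : ∀ t, 0 < c t) (t : ℕ) : t ≤ psum c t := by
  induction t with
  | zero => exact Nat.zero_le _
  | succ t ih => rw [psum_succ]; have := hc t; omega

theorem lt_psum_blk {c : ℕ → ℕ} (hc : ∀ t, 0 < c t) (j : ℕ) : j < psum c (blk c j + 1) :=
  Nat.sInf_mem (s := {t | j < psum c (t + 1)}) ⟨j, le_psum hc (j + 1)⟩

theorem blk_lt_iff {c : ℕ → ℕ} (hc : ∀ t, 0 < c t) {j t : ℕ} : blk c j < t ↔ j < psum c t := by
  constructor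
  · intro h
    exact (lt_psum_blk hc j).trans_le (psum_mono c h)
  · intro h
    cases t with
    | zero => simp [psum] at h
    | succ t => exact Nat.lt_succ_of_le (Nat.sInf_le h)

theorem blk_mono {c : ℕ → ℕ} (hc : ∀ t, 0 < c t) {i j : ℕ} (h : i ≤ j) : blk c i ≤ blk c j :=
  Nat.lt_succ_iff.mp ((blk_lt_iff hc).mpr (h.trans_lt (lt_psum_blk hc j)))

theorem sum_blk {c : ℕ → ℕ} (hc : ∀ t, 0 < c t) (f : ℕ → ℝ) (T : ℕ) :
    ∑ j ∈ range (psum c T), f (blk c j) = ∑ t ∈ range T, c t * f t := by
  induction T with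
  | zero => simp [psum]
  | succ T ih =>
    rw [sum_range_succ, ← ih, psum_succ, sum_range_add]
    congr 1
    rw [sum_congr rfl (g := fun _ => f T), sum_const, card_range, nsmul_eq_mul]
    intro x hx
    have h1 : blk c (psum c T + x) < T + 1 :=
      (blk_lt_iff hc).mpr (by rw [psum_succ]; have := mem_range.mp hx; omega)
    have h2 : ¬ blk c (psum c T + x) < T := fun h => by
      have := (blk_lt_iff hc).mp h
      omega
    rw [show blk c (psum c T + x) = T by omega]

variable {n : ℕ}

/-- Placing the tasks from the last to the first, each on an eligible machine that is not full. -/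
theorem greedy {v : Fin (n + 1) → ℝ} (hv : ∀ i, 0 < v i) {w : ℕ → ℝ} (hw : ∀ j, 0 < w j)
    (E : ℕ → Finset (Fin (n + 1))) (J : ℕ) {C δ : ℝ} (hC : 0 ≤ C + δ)
    (h1 : ∀ j < J, ∑ i ∈ Ico j J, w i ≤ C * ∑ k ∈ E j, v k)
    (h2 : ∀ j < J, ∀ k ∈ E j, w j ≤ δ * v k) : opt v (pre w J) ≤ C + δ := by
  have key : ∀ d ≤ J, ∃ α : ℕ → Fin (n + 1), ∀ k,
      ∑ i ∈ Ico (J - d) J, (if α i = k then w i else 0) ≤ (C + δ) * v k := by
    intro d
    induction d with
    | zero =>
      intro _
      refine ⟨fun _ => 0, fun k => ?_⟩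
      have := hv k
      simp only [Nat.sub_zero, Ico_self, sum_empty]
      positivity
    | succ d ih =>
      intro hd
      obtain ⟨α, hα⟩ := ih (by omega)
      set j := J - (d + 1) with hj
      have hj1 : J - d = j + 1 := by omega
      have hjJ : j < J := by omega
      rw [hj1] at hα
      have hex : ∃ k ∈ E j, ∑ i ∈ Ico (j + 1) J, (if α i = k then w i else 0) ≤ C * v k := by
        by_contra hcon
        push Not at hcon
        have e1 : C * ∑ k ∈ E j, v k ≤
            ∑ k ∈ E j, ∑ i ∈ Ico (j + 1) J, (if α i = k then w i else 0) := by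
          rw [mul_sum]
          exact sum_le_sum fun k hk => (hcon k hk).le
        have e2 : ∑ k ∈ E j, ∑ i ∈ Ico (j + 1) J, (if α i = k then w i else 0) ≤
            ∑ i ∈ Ico (j + 1) J, w i := by
          rw [sum_comm]
          refine sum_le_sum fun i _ => ?_
          rw [sum_ite_eq]
          split_ifs
          · exact le_rfl
          · exact (hw i).le
        have e3 := h1 j hjJ
        rw [sum_eq_sum_Ico_succ_bot hjJ] at e3
        linarith [hw j]
      obtain ⟨k0, hk0, hk1⟩ := hex
      refine ⟨Function.update α j k0, fun k => ?_⟩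
      rw [sum_eq_sum_Ico_succ_bot hjJ, Function.update_self,
        sum_congr rfl (g := fun i => if α i = k then w i else 0) fun i hi => by
          rw [Function.update_of_ne (by have := (mem_Ico.mp hi).1; omega)]]
      split_ifs with h
      · subst h
        linarith [h2 j hjJ k0 hk0]
      · rw [zero_add]; exact hα k
  obtain ⟨α, hα⟩ := key J le_rfl
  refine opt_le_of hv (α := α) fun k => ?_
  have := hα k
  rwa [Nat.sub_self, ← range_eq_Ico] at this

end Pool.Agent.Lib.MP_7a6e05_lc
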