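import Mathlib

/-!
Online load balancing on related machines: the model.
There are `n + 1` machines with speeds `v`; a task sequence is a list of weights.
-/

namespace Pool.Agent.Lib.MP_7a6e05_lc

/-- The maximum machine load when task `j` of `σ` is placed on machine `a j`. -/
noncomputable def makespan {n : ℕ} (v : Fin (n + 1) → ℝ) (σ : List ℝ)
    (a : Fin σ.length → Fin (n + 1)) : ℝ :=
  ⨆ i, (∑ j, if a j = i then σ.get j else 0) / v i

/-- The optimal (minimum over all assignments) maximum load. -/
noncomputable def opt {n : ℕ} (v : Fin (n + 1) → ℝ) (σ : List ℝ) : ℝ :=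
  ⨅ a, makespan v σ a

/-- A deterministic online algorithm: given the speeds and the tasks `1, …, j` seen so far, it
names the machine for task `j`. -/
def Alg : Type := (n : ℕ) → (Fin (n + 1) → ℝ) → List ℝ → Fin (n + 1)

/-- The maximum load produced by the algorithm `A` on `σ`. -/
noncomputable def cost (A : Alg) {n : ℕ} (v : Fin (n + 1) → ℝ) (σ : List ℝ) : ℝ :=
  makespan v σ fun j => A n v (σ.take (j + 1))

end Pool.Agent.Lib.MP_7a6e05_lc
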