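import Pool.Agent.Lib.MP_7a6e05_lc.Blocks

/-!
The hard instance.  Level `l` has `a l` machines of total speed `V l`; batch `t` has `b t` tasks of
total weight `1`.  The counts satisfy `a 0 ≪ …`, more exactly `b 0 ≫ a 0 ≫ b 1 ≫ a 1 ≫ …`, so that a
task of batch `t` is tiny on the machines of level `≥ t` and huge on those of level `< t`.
-/

open Finset

namespace Pool.Agent.Lib.MP_7a6e05_lc

variable {n : ℕ}

/-- Speeds of the instance. -/
noncomputable def spd (a : ℕ → ℕ) (V : ℕ → ℝ) (n : ℕ) : Fin (n + 1) → ℝ :=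
  fun k => V (blk a k) / a (blk a k)

/-- Weights of the instance. -/
noncomputable def wt (b : ℕ → ℕ) : ℕ → ℝ := fun j => 1 / b (blk b j)

theorem wt_pos {b : ℕ → ℕ} (hb : ∀ t, 0 < b t) (j : ℕ) : 0 < wt b j := by
  have : (0 : ℝ) < b (blk b j) := by exact_mod_cast hb _
  unfold wt
  positivity

theorem spd_pos {a : ℕ → ℕ} (ha : ∀ t, 0 < a t) {V : ℕ → ℝ} (hV : ∀ t, 0 < V t) (n : ℕ)
    (k : Fin (n + 1)) : 0 < spd a V n k := by
  have : (0 : ℝ) < a (blk a k) := by exact_mod_cast ha _
  have := hV (blk a k)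
  unfold spd
  positivity

theorem sum_spd {a : ℕ → ℕ} (ha : ∀ t, 0 < a t) (V : ℕ → ℝ) {N : ℕ} (hn : psum a N = n + 1)
    (f : ℕ → ℝ) : ∑ k, spd a V n k * f (blk a k) = ∑ l ∈ range N, V l * f l := by
  have := sum_blk ha (fun l => V l / a l * f l) N
  rw [hn, ← Fin.sum_univ_eq_sum_range (fun j => V (blk a j) / a (blk a j) * f (blk a j))] at this
  refine this.trans (sum_congr rfl fun l _ => ?_)
  have : (0 : ℝ) < a l := by exact_mod_cast ha _
  field_simp

theorem sum_wt {b : ℕ → ℕ} (hb : ∀ t, 0 < b t) (T : ℕ) (f : ℕ → ℝ) :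
    ∑ j ∈ range (psum b T), wt b j * f (blk b j) = ∑ t ∈ range T, f t := by
  refine (sum_blk hb (fun l => 1 / b l * f l) T).trans (sum_congr rfl fun l _ => ?_)
  have : (0 : ℝ) < b l := by exact_mod_cast hb _
  field_simp

/-- Every assignment has large load at the end of many batches. -/
theorem pointwise {a b : ℕ → ℕ} (ha : ∀ t, 0 < a t) (hb : ∀ t, 0 < b t) {V : ℕ → ℝ}
    (hV : ∀ t, 0 < V t) (hV1 : ∀ t, V t ≤ 1) {N : ℕ} (hn : psum a N = n + 1) {K : ℕ} (hK : 0 < K)
    (hab : ∀ t < N, ∀ l < t, K * b t ≤ a l) (α : ℕ → Fin (n + 1)) :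
    (N : ℝ) ≤ ∑ t ∈ range N, (V t + 1 / K) *
      ⨆ i, work (wt b) α (psum b (t + 1)) i / spd a V n i := by
  set M : ℕ → ℝ := fun t => ⨆ i, work (wt b) α (psum b (t + 1)) i / spd a V n i with hM
  have hw := wt_pos hb
  have hv := spd_pos ha hV n
  have hK' : (0 : ℝ) < K := by exact_mod_cast hK
  have hMle : ∀ t k, work (wt b) α (psum b (t + 1)) k ≤ spd a V n k * M t := fun t k => by
    rw [mul_comm, ← div_le_iff₀ (hv k)]
    exact le_iSup_load _ _ k
  have hM0 : ∀ t, 0 ≤ M t := fun t =>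
    nonneg_of_mul_nonneg_right ((work_nonneg (fun j _ => (hw j).le) 0).trans (hMle t 0)) (hv 0)
  have tot : (N : ℝ) = ∑ j ∈ range (psum b N), wt b j := by
    have := sum_wt hb N fun _ => 1
    simpa using this.symm
  have good : ∑ j ∈ range (psum b N), (if blk b j ≤ blk a (α j) then wt b j else 0) ≤
      ∑ t ∈ range N, V t * M t := by
    rw [← sum_spd ha V hn M]
    have e : ∀ j, (if blk b j ≤ blk a (α j) then wt b j else 0) =
        ∑ k : Fin (n + 1), if blk b j ≤ blk a k then (if α j = k then wt b j else 0) else 0 := by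
      intro j
      rw [sum_eq_single (α j)]
      · simp
      · intro k _ hk
        simp [hk.symm]
      · simp
    rw [sum_congr rfl fun j _ => e j, sum_comm]
    refine sum_le_sum fun k _ => le_trans ?_ (hMle (blk a k) k)
    rw [← sum_filter]
    refine sum_le_sum_of_subset_of_nonneg (fun j hj => ?_) fun j _ _ => ?_
    · exact mem_range.mpr ((blk_lt_iff hb).mp (Nat.lt_succ_of_le (mem_filter.mp hj).2))
    · split_ifs
      · exact (hw j).le
      · exact le_rfl
  have bad : ∑ j ∈ range (psum b N), (if blk b j ≤ blk a (α j) then 0 else wt b j) ≤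
      ∑ t ∈ range N, 1 / K * M t := by
    rw [← sum_wt hb N fun t => 1 / K * M t]
    refine sum_le_sum fun j hj => ?_
    have h0 := hM0 (blk b j)
    have h1 := hw j
    split_ifs with h
    · positivity
    · have ht : blk b j < N := (blk_lt_iff hb).mpr (mem_range.mp hj)
      have h2 := (le_work (α := α) (lt_psum_blk hb j) fun i _ => (hw i).le).trans
        (hMle (blk b j) (α j))
      refine h2.trans ?_
      rw [← mul_assoc]
      refine mul_le_mul_of_nonneg_right ?_ h0
      have h3 : (K : ℝ) * b (blk b j) ≤ a (blk a (α j)) := by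
        exact_mod_cast hab _ ht _ (not_le.mp h)
      have h4 : (0 : ℝ) < b (blk b j) := by exact_mod_cast hb _
      unfold spd wt
      rw [div_mul_div_comm, one_mul, mul_comm]
      exact div_le_div₀ zero_le_one (hV1 _) (by positivity) h3
  rw [tot]
  calc ∑ j ∈ range (psum b N), wt b j
      = ∑ j ∈ range (psum b N), (if blk b j ≤ blk a (α j) then wt b j else 0) +
        ∑ j ∈ range (psum b N), (if blk b j ≤ blk a (α j) then 0 else wt b j) := by
        rw [← sum_add_distrib]
        refine sum_congr rfl fun j _ => ?_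
        split_ifs <;> simp
    _ ≤ ∑ t ∈ range N, V t * M t + ∑ t ∈ range N, 1 / K * M t := add_le_add good bad
    _ = _ := by
        rw [← sum_add_distrib]
        exact sum_congr rfl fun t _ => by ring

/-- The optimum at the end of batch `t`. -/
theorem opt_inst {a b : ℕ → ℕ} (ha : ∀ t, 0 < a t) (hb : ∀ t, 0 < b t) {V : ℕ → ℝ}
    {m : ℝ} (hm : 0 < m) (hV : ∀ t, 0 < V t) {N : ℕ} (hVm : ∀ t < N, m ≤ V t)
    (hn : psum a N = n + 1) {K : ℕ} (hK : 0 < K)
    (hba : ∀ l < N, ∀ s ≤ l, K * a l ≤ b s) {t : ℕ} {C : ℝ} (hC0 : 0 ≤ C)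
    (hC : ∀ s ≤ t, ((t + 1 - s : ℕ) : ℝ) ≤ C * ∑ l ∈ Ico s N, V l) :
    opt (spd a V n) (pre (wt b) (psum b (t + 1))) ≤ C + 1 / (K * m) := by
  have hw := wt_pos hb
  have hv := spd_pos ha hV n
  have hK' : (0 : ℝ) < K := by exact_mod_cast hK
  refine greedy hv hw (fun j => univ.filter fun k : Fin (n + 1) => blk b j ≤ blk a k) _
    (by positivity) (fun j hj => ?_) fun j _ k hk => ?_
  · have hs : blk b j ≤ t := Nat.lt_succ_iff.mp ((blk_lt_iff hb).mpr hj)
    have e1 : ∑ k ∈ univ.filter fun k : Fin (n + 1) => blk b j ≤ blk a k, spd a V n k =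
        ∑ l ∈ Ico (blk b j) N, V l := by
      have := sum_spd ha V hn fun l => if blk b j ≤ l then 1 else 0
      simp only [mul_ite, mul_one, mul_zero] at this
      rw [sum_filter, this, ← sum_filter]
      refine sum_congr ?_ fun _ _ => rfl
      ext l
      simp [and_comm]
    have e2 : ∑ i ∈ Ico j (psum b (t + 1)), wt b i ≤ ((t + 1 - blk b j : ℕ) : ℝ) := by
      have := sum_wt hb (t + 1) fun l => if blk b j ≤ l then 1 else 0
      simp only [mul_ite, mul_one, mul_zero] at this
      rw [← sum_filter, ← sum_filter] at this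
      have e3 : (range (t + 1)).filter (fun l => blk b j ≤ l) = Ico (blk b j) (t + 1) := by
        ext l
        simp [and_comm]
      rw [e3, sum_const, Nat.card_Ico, nsmul_eq_mul, mul_one] at this
      rw [← this]
      refine sum_le_sum_of_subset_of_nonneg (fun i hi => ?_) fun i _ _ => (hw i).le
      exact mem_filter.mpr ⟨mem_range.mpr (mem_Ico.mp hi).2, blk_mono hb (mem_Ico.mp hi).1⟩
    rw [e1]
    exact e2.trans (hC _ hs)
  · have hl : blk a k < N := (blk_lt_iff ha).mpr (by rw [hn]; exact k.2)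
    have h3 : (K : ℝ) * a (blk a k) ≤ b (blk b j) := by
      exact_mod_cast hba _ hl _ (mem_filter.mp hk).2
    have h4 : (0 : ℝ) < a (blk a k) := by exact_mod_cast ha _
    have h5 := hVm _ hl
    unfold spd wt
    calc (1 : ℝ) / b (blk b j) ≤ 1 / (K * a (blk a k)) :=
          one_div_le_one_div_of_le (by positivity) h3
      _ = 1 / (K * m) * (m / a (blk a k)) := by field_simp
      _ ≤ _ := by gcongr

end Pool.Agent.Lib.MP_7a6e05_lc
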