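import Pool.Agent.Lib.MP_7a6e05_lc.Lower

/-!
Taking expectations and limits in the hard instance.
-/

open Finset MeasureTheory

namespace Pool.Agent.Lib.MP_7a6e05_lc

variable {Ω : Type*} [MeasurableSpace Ω] {μ : Measure Ω} [IsProbabilityMeasure μ] {A : Ω → Alg}

theorem integrable_cost {n : ℕ} (v : Fin (n + 1) → ℝ) (σ : List ℝ)
    (h : AEMeasurable (fun ω => cost (A ω) v σ) μ) : Integrable (fun ω => cost (A ω) v σ) μ := by
  obtain ⟨B, hB⟩ := (Set.finite_range fun a => ‖makespan v σ a‖).bddAbove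
  exact Integrable.of_bound h.aestronglyMeasurable B
    (Filter.Eventually.of_forall fun ω => hB ⟨_, rfl⟩)

/-- `A` is `c`-competitive in expectation. -/
def Comp (μ : Measure Ω) (A : Ω → Alg) (c : ℝ) : Prop :=
  ∀ (n : ℕ) (v : Fin (n + 1) → ℝ) (σ : List ℝ), (∀ i, 0 < v i) → (∀ x ∈ σ, 0 < x) →
    AEMeasurable (fun ω => cost (A ω) v σ) μ ∧ ∫ ω, cost (A ω) v σ ∂μ ≤ c * opt v σ

theorem bound_K {c : ℝ} (hA : Comp μ A c) {V C : ℕ → ℝ} {m : ℝ} (hm : 0 < m) (hV : ∀ t, 0 < V t)
    (hV1 : ∀ t, V t ≤ 1) {N : ℕ} (hN : 0 < N) (hVm : ∀ t < N, m ≤ V t) (hC0 : ∀ t, 0 ≤ C t)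
    (hC : ∀ t < N, ∀ s ≤ t, ((t + 1 - s : ℕ) : ℝ) ≤ C t * ∑ l ∈ Ico s N, V l)
    {K : ℕ} (hK : 0 < K) :
    (N : ℝ) ≤ c * ∑ t ∈ range N, (V t + 1 / K) * (C t + 1 / (K * m)) := by
  set a : ℕ → ℕ := fun t => K ^ (2 * (N - t)) with ha'
  set b : ℕ → ℕ := fun t => K ^ (2 * (N - t) + 1) with hb'
  have ha : ∀ t, 0 < a t := fun t => pow_pos hK _
  have hb : ∀ t, 0 < b t := fun t => pow_pos hK _
  have hK' : (0 : ℝ) < K := by exact_mod_cast hK
  obtain ⟨n, hn⟩ : ∃ n, psum a N = n + 1 := ⟨psum a N - 1, by have := le_psum ha N; omega⟩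
  have hab : ∀ t < N, ∀ l < t, K * b t ≤ a l := fun t ht l hl => by
    rw [ha', hb', ← pow_succ']
    exact Nat.pow_le_pow_right hK (by omega)
  have hba : ∀ l < N, ∀ s ≤ l, K * a l ≤ b s := fun l _ s hs => by
    rw [ha', hb', ← pow_succ']
    exact Nat.pow_le_pow_right hK (by omega)
  have hv := spd_pos ha hV n
  have hw := wt_pos hb
  have hσ : ∀ J, ∀ x ∈ pre (wt b) J, 0 < x := fun J x hx => by
    obtain ⟨j, -, rfl⟩ := List.mem_map.mp hx
    exact hw j
  have hint : ∀ J, Integrable (fun ω => cost (A ω) (spd a V n) (pre (wt b) J)) μ := fun J =>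
    integrable_cost _ _ (hA n _ _ hv (hσ J)).1
  have pw : ∀ ω, (N : ℝ) ≤ ∑ t ∈ range N, (V t + 1 / K) *
      cost (A ω) (spd a V n) (pre (wt b) (psum b (t + 1))) := fun ω => by
    simp only [cost_pre]
    exact pointwise ha hb hV hV1 hn hK hab _
  have ex : (N : ℝ) ≤ ∑ t ∈ range N, (V t + 1 / K) *
      ∫ ω, cost (A ω) (spd a V n) (pre (wt b) (psum b (t + 1))) ∂μ := by
    have h1 := integral_mono (integrable_const (N : ℝ))
      (integrable_finsetSum (range N) fun t _ => (hint (psum b (t + 1))).const_mul (V t + 1 / K))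
      pw
    rw [integral_finsetSum _ fun t _ => (hint (psum b (t + 1))).const_mul (V t + 1 / K)] at h1
    simpa [integral_const_mul] using h1
  have hcoef : ∀ t, 0 ≤ V t + 1 / K := fun t => by have := hV t; positivity
  have ex2 : (N : ℝ) ≤ ∑ t ∈ range N, (V t + 1 / K) *
      (c * opt (spd a V n) (pre (wt b) (psum b (t + 1)))) :=
    ex.trans (sum_le_sum fun t _ => mul_le_mul_of_nonneg_left (hA n _ _ hv (hσ _)).2 (hcoef t))
  have hc : 0 ≤ c := by
    by_contra hcon
    have : ∑ t ∈ range N, (V t + 1 / K) *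
        (c * opt (spd a V n) (pre (wt b) (psum b (t + 1)))) ≤ 0 :=
      sum_nonpos fun t _ => mul_nonpos_of_nonneg_of_nonpos (hcoef t)
        (mul_nonpos_of_nonpos_of_nonneg (not_le.mp hcon).le (opt_nonneg hv fun j _ => (hw j).le))
    have : (0 : ℝ) < N := by exact_mod_cast hN
    linarith
  refine ex2.trans ?_
  rw [mul_sum]
  refine sum_le_sum fun t ht => ?_
  rw [mul_left_comm]
  exact mul_le_mul_of_nonneg_left (mul_le_mul_of_nonneg_left
    (opt_inst ha hb hm hV hVm hn hK hba (hC0 t) (hC t (mem_range.mp ht))) (hcoef t)) hc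

theorem bound_V {c : ℝ} (hA : Comp μ A c) {V C : ℕ → ℝ} {m : ℝ} (hm : 0 < m) (hV : ∀ t, 0 < V t)
    (hV1 : ∀ t, V t ≤ 1) {N : ℕ} (hN : 0 < N) (hVm : ∀ t < N, m ≤ V t) (hC0 : ∀ t, 0 ≤ C t)
    (hC : ∀ t < N, ∀ s ≤ t, ((t + 1 - s : ℕ) : ℝ) ≤ C t * ∑ l ∈ Ico s N, V l) :
    (N : ℝ) ≤ c * ∑ t ∈ range N, V t * C t := by
  have h0 : Filter.Tendsto (fun K : ℕ => (1 : ℝ) / K) Filter.atTop (nhds 0) :=
    tendsto_one_div_atTop_nhds_zero_nat
  have h1 : Filter.Tendsto
      (fun K : ℕ => c * ∑ t ∈ range N, (V t + 1 / K) * (C t + 1 / K * (1 / m))) Filter.atTop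
      (nhds (c * ∑ t ∈ range N, (V t + 0) * (C t + 0 * (1 / m)))) :=
    (tendsto_finsetSum _ fun t _ =>
      (h0.const_add (V t)).mul ((h0.mul_const (1 / m)).const_add (C t))).const_mul c
  simp only [add_zero, zero_mul] at h1
  refine ge_of_tendsto h1 (Filter.eventually_atTop.mpr ⟨1, fun K hK => ?_⟩)
  have := bound_K hA hm hV hV1 hN hVm hC0 hC (K := K) hK
  simpa only [one_div_mul_one_div] using this

theorem bound_L {c : ℝ} (hA : Comp μ A c) {L : ℝ} (hL : 0 < L) (M : ℕ) :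
    ((M : ℝ) + 1) * (Real.exp 1 * L) ≤ c * ((M + 1) * (Real.exp L - 1) + 1) := by
  set r := Real.exp (-L) with hr
  have hr0 : 0 < r := Real.exp_pos _
  have hr1 : r < 1 := Real.exp_lt_one_iff.mpr (by linarith)
  have hrq : r * Real.exp L = 1 := by rw [hr, ← Real.exp_add]; simp
  have he : 0 < Real.exp 1 * L := by positivity
  set V : ℕ → ℝ := fun l => if l < M then r ^ l * (1 - r) else r ^ l with hV'
  have hVge : ∀ l, r ^ l * (1 - r) ≤ V l := fun l => by
    have : 0 < r ^ l := pow_pos hr0 l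
    simp only [hV']
    split_ifs
    · exact le_rfl
    · nlinarith
  have hsum : ∀ s ≤ M, ∑ l ∈ Ico s (M + 1), V l = r ^ s := by
    intro s hs
    induction hs using Nat.decreasingInduction with
    | self => simp [hV']
    | of_succ s hs ih =>
      rw [sum_eq_sum_Ico_succ_bot (by omega), ih]
      simp only [hV', if_pos hs]
      ring
  have key := bound_V hA (V := V) (C := fun t => Real.exp L ^ (t + 1) / (Real.exp 1 * L))
    (m := r ^ M * (1 - r)) (N := M + 1) (mul_pos (pow_pos hr0 _) (by linarith))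
    (fun t => (mul_pos (pow_pos hr0 _) (by linarith)).trans_le (hVge t))
    (fun t => by
      have h1 : r ^ t ≤ 1 := pow_le_one₀ hr0.le hr1.le
      have h2 : 0 < r ^ t := pow_pos hr0 t
      simp only [hV']
      split_ifs
      · nlinarith
      · exact h1)
    (Nat.succ_pos M)
    (fun t ht => le_trans (mul_le_mul_of_nonneg_right
      (pow_le_pow_of_le_one hr0.le hr1.le (by omega)) (by linarith)) (hVge t))
    (fun t => by positivity)
    (fun t ht s hs => by
      rw [hsum s (by omega)]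
      obtain ⟨k, hk⟩ : ∃ k, t + 1 = s + k := ⟨t + 1 - s, by omega⟩
      rw [hk, Nat.add_sub_cancel_left, div_mul_eq_mul_div, le_div_iff₀ he, pow_add, mul_right_comm,
        ← mul_pow, mul_comm (Real.exp L) r, hrq, one_pow, one_mul, ← Real.exp_nat_mul]
      have h1 := Real.add_one_le_exp (k * L - 1)
      have h2 : Real.exp (k * L) = Real.exp 1 * Real.exp (k * L - 1) := by
        rw [← Real.exp_add]; ring_nf
      rw [h2]
      have h3 := Real.exp_pos 1
      nlinarith)
  have hs : ∑ t ∈ range (M + 1), V t * (Real.exp L ^ (t + 1) / (Real.exp 1 * L)) =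
      ((M + 1) * (Real.exp L - 1) + 1) / (Real.exp 1 * L) := by
    have hp : ∀ t : ℕ, r ^ t * Real.exp L ^ (t + 1) = Real.exp L := fun t => by
      rw [pow_succ, ← mul_assoc, ← mul_pow, hrq, one_pow, one_mul]
    rw [sum_range_succ, sum_congr rfl (g := fun _ => (Real.exp L - 1) / (Real.exp 1 * L)),
      sum_const, card_range, nsmul_eq_mul]
    · simp only [hV', lt_irrefl, if_false]
      rw [← mul_div_assoc (r ^ M), hp]
      ring
    · intro t ht
      simp only [hV', if_pos (mem_range.mp ht)]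
      rw [← mul_div_assoc, mul_right_comm, hp, mul_sub, mul_one, mul_comm (Real.exp L) r, hrq]
  rw [hs, ← mul_div_assoc, le_div_iff₀ he] at key
  exact_mod_cast key

theorem exp_one_le {c : ℝ} (hA : Comp μ A c) : Real.exp 1 ≤ c := by
  have h1 : ∀ L : ℝ, 0 < L → Real.exp 1 * L ≤ c * (Real.exp L - 1) := by
    intro L hL
    have h0 : Filter.Tendsto (fun M : ℕ => c * ((Real.exp L - 1) + 1 / ((M : ℝ) + 1)))
        Filter.atTop (nhds (c * ((Real.exp L - 1) + 0))) :=
      (tendsto_one_div_add_atTop_nhds_zero_nat.const_add _).const_mul c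
    rw [add_zero] at h0
    refine ge_of_tendsto' h0 fun M => ?_
    have hM : (0 : ℝ) < M + 1 := by positivity
    have := bound_L hA hL M
    refine le_of_mul_le_mul_left (this.trans_eq ?_) hM
    field_simp
  have hc : 0 ≤ c := by
    have := h1 1 one_pos
    have h2 : 1 < Real.exp 1 := Real.one_lt_exp_iff.mpr one_pos
    by_contra hcon
    nlinarith
  have h2 : ∀ L : ℝ, 0 < L → Real.exp 1 ≤ c * Real.exp L := by
    intro L hL
    have h3 : Real.exp L - 1 ≤ L * Real.exp L := by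
      have h4 := Real.add_one_le_exp (-L)
      have h5 : Real.exp (-L) * Real.exp L = 1 := by rw [← Real.exp_add]; simp
      have h6 := Real.exp_pos L
      nlinarith
    have h7 := (h1 L hL).trans (mul_le_mul_of_nonneg_left h3 hc)
    refine le_of_mul_le_mul_right (h7.trans_eq ?_) hL
    ring
  have h8 : Filter.Tendsto (fun M : ℕ => c * Real.exp (1 / ((M : ℝ) + 1))) Filter.atTop
      (nhds (c * Real.exp 0)) :=
    ((Real.continuous_exp.tendsto 0).comp tendsto_one_div_add_atTop_nhds_zero_nat).const_mul c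
  rw [Real.exp_zero, mul_one] at h8
  exact ge_of_tendsto' h8 fun M => h2 _ (by positivity)

end Pool.Agent.Lib.MP_7a6e05_lc
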