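import Pool.Agent.Results.MP_7a6e05_lc.SplitLower
import Pool.Agent.Lib.MP_7a6e05_lc.LowerRand

open MeasureTheory Finset

namespace Pool.Agent.Lib.MP_7a6e05_lc

/-- The bound for algorithms that do not split tasks is a special case of `SplitLower.result`. -/
theorem rand_of_split {Ω : Type*} [MeasurableSpace Ω] (μ : Measure Ω) [IsProbabilityMeasure μ]
    (A : Ω → Alg)
    (hmeas : ∀ (n : ℕ) (v : Fin (n + 1) → ℝ) (σ : List ℝ),
      AEMeasurable (fun ω => cost (A ω) v σ) μ)
    (c : ℝ)
    (hc : ∀ (n : ℕ) (v : Fin (n + 1) → ℝ) (σ : List ℝ), (∀ i, 0 < v i) → (∀ x ∈ σ, 0 < x) →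
      ∫ ω, cost (A ω) v σ ∂μ ≤ c * opt v σ) :
    Real.exp 1 ≤ c := by
  refine Pool.Agent.Results.MP_7a6e05_lc.SplitLower.result μ
    (fun ω n v τ i => if A ω n v τ = i then τ.getD (τ.length - 1) 0 else 0)
    (fun ω n v σ => cost (A ω) v σ) c fun n v σ hv hσ => ?_
  have hl : ∀ j : Fin σ.length, (σ.take (j + 1)).getD ((σ.take (j + 1)).length - 1) 0 = σ.get j := by
    intro j
    have := j.2
    simp [List.length_take, List.getD]
  have hp : ∀ j : Fin σ.length, 0 < σ.get j := fun j => hσ _ (List.get_mem σ j)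
  have hload : ∀ ω i, (∑ j : Fin σ.length, if A ω n v (σ.take (j + 1)) = i then σ.get j else 0) / v i
      ≤ cost (A ω) v σ := fun ω i =>
    le_ciSup (f := fun i => (∑ j : Fin σ.length,
      if A ω n v (σ.take (j + 1)) = i then σ.get j else 0) / v i) (Set.finite_range _).bddAbove i
  refine ⟨fun ω j => ⟨fun i => ?_, ?_, ?_⟩, fun ω i => ?_, integrable_cost v σ (hmeas n v σ),
    hc n v σ hv hσ⟩
  · simp only [hl]
    split_ifs
    · exact (hp j).le
    · exact le_rfl
  · simp only [hl]
    simp
  · simp only [hl]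
    rw [sum_eq_single (A ω n v (σ.take (j + 1)))]
    · refine le_trans ?_ (hload ω (A ω n v (σ.take (j + 1))))
      refine div_le_div_of_nonneg_right ?_ (hv _).le
      have := single_le_sum (f := fun l : Fin σ.length =>
        if A ω n v (σ.take (l + 1)) = A ω n v (σ.take (j + 1)) then σ.get l else 0) (s := univ)
        (fun l _ => by
          split_ifs
          · exact (hp l).le
          · exact le_rfl) (mem_univ j)
      simpa using this
    · intro b _ hb
      simp [hb.symm]
    · simp
  · simp only [hl]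
    exact hload ω i

end Pool.Agent.Lib.MP_7a6e05_lc
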