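import Pool.Agent.Lib.MP_7a6e05_lc.Basic

/-!
A deterministic algorithm with ratio `β / log β + β`.
-/

open Finset MeasureTheory

namespace Pool.Agent.Lib.MP_7a6e05_lc

/-- The covering inequality, obtained by integrating against `dx / x`. -/
theorem cover {ι κ : Type} (J : Finset ι) (K : Finset κ) (p L : ι → ℝ) (v Λ : κ → ℝ) {β : ℝ}
    (hβ : 1 < β) (hL : ∀ j ∈ J, 0 < L j) (hΛ : ∀ k ∈ K, 0 ≤ Λ k)
    (h : ∀ x, 0 < x → ∑ j ∈ J, (if x ≤ L j ∧ L j ≤ β * x then p j else 0) ≤
      β * x * ∑ k ∈ K, if x ≤ Λ k then v k else 0) :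
    (∑ j ∈ J, p j) * Real.log β ≤ β * ∑ k ∈ K, v k * Λ k := by
  have hβ0 : 0 < β := by linarith
  let f : ι → ℝ → ℝ := fun j => (Set.Icc (L j / β) (L j)).indicator fun x => p j * x⁻¹
  let g : κ → ℝ → ℝ := fun k => (Set.Ioc 0 (Λ k)).indicator fun _ => β * v k
  have hf : ∀ j ∈ J, Integrable (f j) := by
    intro j hj
    refine (integrable_indicator_iff measurableSet_Icc).mpr (ContinuousOn.integrableOn_Icc ?_)
    refine continuousOn_const.mul (continuousOn_inv₀.mono fun x hx => ?_)
    exact ((div_pos (hL j hj) hβ0).trans_le hx.1).ne'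
  have hg : ∀ k ∈ K, Integrable (g k) := fun k _ =>
    (integrable_indicator_iff measurableSet_Ioc).mpr (integrableOn_const (by simp))
  have hfi : ∀ j ∈ J, ∫ x, f j x = p j * Real.log β := by
    intro j hj
    have h1 : L j / β ≤ L j := div_le_self (hL j hj).le hβ.le
    have h2 := div_pos (hL j hj) hβ0
    rw [integral_indicator measurableSet_Icc, integral_Icc_eq_integral_Ioc,
      ← intervalIntegral.integral_of_le h1, intervalIntegral.integral_const_mul,
      integral_inv_of_pos h2 (hL j hj)]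
    congr 2
    have := (hL j hj).ne'
    field_simp
  have hgi : ∀ k ∈ K, ∫ x, g k x = β * (v k * Λ k) := by
    intro k hk
    rw [integral_indicator measurableSet_Ioc, setIntegral_const, Real.volume_real_Ioc_of_le
      (hΛ k hk), smul_eq_mul]
    ring
  have hle : ∀ x, ∑ j ∈ J, f j x ≤ ∑ k ∈ K, g k x := by
    intro x
    by_cases hx : 0 < x
    · have e1 : ∑ j ∈ J, f j x =
          (∑ j ∈ J, if x ≤ L j ∧ L j ≤ β * x then p j else 0) * x⁻¹ := by
        rw [sum_mul]
        refine sum_congr rfl fun j _ => ?_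
        have : x ∈ Set.Icc (L j / β) (L j) ↔ x ≤ L j ∧ L j ≤ β * x := by
          rw [Set.mem_Icc, div_le_iff₀' hβ0, and_comm]
        simp only [f, Set.indicator_apply, this]
        split_ifs <;> simp
      have e2 : ∑ k ∈ K, g k x = (β * x * ∑ k ∈ K, if x ≤ Λ k then v k else 0) * x⁻¹ := by
        rw [mul_sum, sum_mul]
        refine sum_congr rfl fun k _ => ?_
        simp only [g, Set.indicator_apply, Set.mem_Ioc, hx, true_and]
        split_ifs
        · field_simp
        · simp
      rw [e1, e2]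
      exact mul_le_mul_of_nonneg_right (h x hx) (inv_nonneg.mpr hx.le)
    · have e1 : ∑ j ∈ J, f j x = 0 := sum_eq_zero fun j hj =>
        Set.indicator_of_notMem (fun hm => hx ((div_pos (hL j hj) hβ0).trans_le hm.1)) _
      have e2 : ∑ k ∈ K, g k x = 0 := sum_eq_zero fun k _ =>
        Set.indicator_of_notMem (fun hm => hx hm.1) _
      rw [e1, e2]
  have := integral_mono (integrable_finsetSum J hf) (integrable_finsetSum K hg) hle
  rw [integral_finsetSum J hf, integral_finsetSum K hg, sum_congr rfl hfi,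
    sum_congr rfl hgi, ← sum_mul, ← mul_sum] at this
  exact this

variable {n : ℕ}

/-- The jobs involved in a failure at job `f`. -/
inductive InJ (v : Fin (n + 1) → ℝ) (w L : ℕ → ℝ) (α : ℕ → Fin (n + 1)) (β : ℝ) (f : ℕ) : ℕ → Prop
  | base : InJ v w L α β f f
  | step {i j : ℕ} : InJ v w L α β f j → i < j → w j ≤ β * L j * v (α i) → InJ v w L α β f i

theorem InJ.le {v : Fin (n + 1) → ℝ} {w L : ℕ → ℝ} {α : ℕ → Fin (n + 1)} {β : ℝ} {f j : ℕ}
    (h : InJ v w L α β f j) : j ≤ f := by
  induction h with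
  | base => exact le_rfl
  | step _ h1 _ ih => omega

/-- No job can fail. -/
theorem no_failure {v : Fin (n + 1) → ℝ} (hv : ∀ i, 0 < v i) {w : ℕ → ℝ} {f : ℕ}
    (hw : ∀ j < f + 1, 0 < w j) {α : ℕ → Fin (n + 1)} {β : ℝ} (hβ : 1 < β)
    (hrule : ∀ j < f, ∀ k, w j ≤ β * opt v (pre w (j + 1)) * v k → v k < v (α j) →
      β / Real.log β * opt v (pre w (j + 1)) * v k ≤ work w α j k)
    (hfail : ∀ k, w f ≤ β * opt v (pre w (f + 1)) * v k →
      β / Real.log β * opt v (pre w (f + 1)) * v k ≤ work w α f k) : False := by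
  classical
  set L : ℕ → ℝ := fun j => opt v (pre w (j + 1)) with hLdef
  set c := β / Real.log β with hc
  have hβ0 : 0 < β := by linarith
  have hlog : 0 < Real.log β := Real.log_pos hβ
  have hLpos : ∀ j ≤ f, 0 < L j := fun j hj => opt_pos hv fun i hi => hw i (by omega)
  have hLmono : ∀ i j, i ≤ j → j ≤ f → L i ≤ L j := fun i j hij hj =>
    opt_mono hv (by omega) fun l hl => (hw l (by omega)).le
  have P1 : ∀ j, InJ v w L α β f j → ∀ k, w j ≤ β * L j * v k →
      ∃ j', j ≤ j' ∧ InJ v w L α β f j' ∧ w j' ≤ β * L j' * v k ∧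
        c * L j' * v k ≤ work w α j' k := by
    intro j hj
    induction hj with
    | base => exact fun k hk => ⟨f, le_rfl, InJ.base, hk, hfail k hk⟩
    | @step i j hj hij hel ih =>
      intro k hk
      by_cases hlt : v k < v (α i)
      · exact ⟨i, le_rfl, InJ.step hj hij hel, hk, hrule i (by have := hj.le; omega) k hk hlt⟩
      · have : w j ≤ β * L j * v k := hel.trans (mul_le_mul_of_nonneg_left (not_lt.mp hlt)
          (mul_pos hβ0 (hLpos j hj.le)).le)
        obtain ⟨j', h1, h2⟩ := ih k this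
        exact ⟨j', by omega, h2⟩
  let J : Finset ℕ := (range (f + 1)).filter (InJ v w L α β f)
  have hJ : ∀ j, j ∈ J ↔ InJ v w L α β f j := fun j => by
    simp only [J, mem_filter, mem_range]
    exact ⟨fun h => h.2, fun h => ⟨Nat.lt_succ_of_le h.le, h⟩⟩
  have key : ∀ k, ∃ Λ : ℝ, 0 ≤ Λ ∧ (∀ j ∈ J, w j ≤ β * L j * v k → L j ≤ Λ) ∧
      c * Λ * v k ≤ ∑ i ∈ J.erase f, if α i = k then w i else 0 := by
    intro k
    have hnn : ∀ i ∈ J.erase f, 0 ≤ if α i = k then w i else 0 := fun i hi => by
      split_ifs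
      · exact (hw i (Nat.lt_succ_of_le ((hJ i).mp (mem_of_mem_erase hi)).le)).le
      · exact le_rfl
    by_cases hne : (J.filter fun j => w j ≤ β * L j * v k).Nonempty
    · obtain ⟨τ, hτ, hmax⟩ := exists_max_image _ id hne
      rw [mem_filter, hJ] at hτ
      refine ⟨L τ, (hLpos τ hτ.1.le).le, fun j hj hel =>
        hLmono j τ (hmax j (mem_filter.mpr ⟨hj, hel⟩)) hτ.1.le, ?_⟩
      obtain ⟨j', h1, h2, h3, h4⟩ := P1 τ hτ.1 k hτ.2
      have h5 : j' ≤ τ := hmax j' (mem_filter.mpr ⟨(hJ j').mpr h2, h3⟩)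
      have h6 : j' = τ := le_antisymm h5 h1
      subst h6
      refine h4.trans ?_
      rw [work, ← sum_filter, ← sum_filter]
      refine sum_le_sum_of_subset_of_nonneg (fun i hi => ?_) fun i hi _ => ?_
      · rw [mem_filter, mem_range] at hi
        have := h2.le
        refine mem_filter.mpr ⟨mem_erase.mpr ⟨by omega, (hJ i).mpr (InJ.step h2 hi.1 ?_)⟩, hi.2⟩
        rw [hi.2]; exact h3
      · rw [mem_filter] at hi
        exact (hw i (Nat.lt_succ_of_le ((hJ i).mp (mem_of_mem_erase hi.1)).le)).le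
    · refine ⟨0, le_rfl, fun j hj hel => absurd ⟨j, mem_filter.mpr ⟨hj, hel⟩⟩ hne, ?_⟩
      rw [mul_zero, zero_mul]
      exact sum_nonneg hnn
  choose Λ hΛ0 hΛ1 hΛ2 using key
  have low : c * ∑ k, v k * Λ k ≤ ∑ i ∈ J.erase f, w i := by
    calc c * ∑ k, v k * Λ k = ∑ k, c * Λ k * v k := by
          rw [mul_sum]; exact sum_congr rfl fun k _ => by ring
      _ ≤ ∑ k, ∑ i ∈ J.erase f, if α i = k then w i else 0 := sum_le_sum fun k _ => hΛ2 k
      _ = ∑ i ∈ J.erase f, w i := by
          rw [sum_comm]; exact sum_congr rfl fun i _ => by simp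
  have up : (∑ j ∈ J, w j) * Real.log β ≤ β * ∑ k, v k * Λ k := by
    refine cover J univ w L v Λ hβ (fun j hj => hLpos j ((hJ j).mp hj).le) (fun k _ => hΛ0 k) ?_
    intro x hx
    have hV : 0 ≤ ∑ k, if x ≤ Λ k then v k else 0 := sum_nonneg fun k _ => by
      split_ifs
      · exact (hv k).le
      · exact le_rfl
    rw [← sum_filter]
    by_cases hne : (J.filter fun j => x ≤ L j ∧ L j ≤ β * x).Nonempty
    · obtain ⟨τ, hτ, hmax⟩ := exists_max_image _ id hne
      rw [mem_filter, hJ] at hτ
      obtain ⟨a, ha⟩ := exists_opt hv w (τ + 1)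
      have hwτ : ∀ j < τ + 1, 0 ≤ w j := fun j hj => (hw j (by have := hτ.1.le; omega)).le
      calc ∑ j ∈ J.filter fun j => x ≤ L j ∧ L j ≤ β * x, w j
          ≤ ∑ j ∈ (range (τ + 1)).filter fun j => a j ∈ univ.filter fun k => x ≤ Λ k, w j := by
            refine sum_le_sum_of_subset_of_nonneg (fun j hj => ?_) fun j hj _ =>
              hwτ j (mem_range.mp (mem_filter.mp hj).1)
            have hjτ : j ≤ τ := hmax j hj
            rw [mem_filter] at hj
            have h1 : w j ≤ L τ * v (a j) :=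
              (le_work (α := a) (Nat.lt_succ_of_le hjτ) hwτ).trans (ha _)
            have h2 : L τ ≤ β * L j := hτ.2.2.trans (mul_le_mul_of_nonneg_left hj.2.1 hβ0.le)
            have h3 := hΛ1 (a j) j hj.1 (h1.trans (mul_le_mul_of_nonneg_right h2 (hv _).le))
            exact mem_filter.mpr ⟨mem_range.mpr (Nat.lt_succ_of_le hjτ),
              mem_filter.mpr ⟨mem_univ _, hj.2.1.trans h3⟩⟩
        _ = ∑ k ∈ univ.filter fun k => x ≤ Λ k, work w a (τ + 1) k := by
            rw [sum_work, sum_filter]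
        _ ≤ ∑ k ∈ univ.filter fun k => x ≤ Λ k, β * x * v k := sum_le_sum fun k _ =>
            (ha k).trans (mul_le_mul_of_nonneg_right hτ.2.2 (hv k).le)
        _ = β * x * ∑ k, if x ≤ Λ k then v k else 0 := by rw [← mul_sum, sum_filter]
    · rw [not_nonempty_iff_eq_empty.mp hne, sum_empty]
      exact mul_nonneg (mul_pos hβ0 hx).le hV
  have hsplit := add_sum_erase J w ((hJ f).mpr InJ.base)
  have hwf := hw f (Nat.lt_succ_self f)
  have up' : ∑ j ∈ J, w j ≤ c * ∑ k, v k * Λ k := by
    rw [hc, div_mul_eq_mul_div, le_div_iff₀ hlog]; exact up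
  linarith

open Classical in
/-- The rule: the slowest machine on which the task is at most `β L` long and whose load is below
`c L`. -/
noncomputable def dec (β c : ℝ) (v W : Fin (n + 1) → ℝ) (p L : ℝ) : Fin (n + 1) :=
  if h : (univ.filter fun k => p ≤ β * L * v k ∧ W k < c * L * v k).Nonempty then
    (exists_min_image _ v h).choose else 0

theorem dec_spec {β c : ℝ} {v W : Fin (n + 1) → ℝ} {p L : ℝ}
    (h : ∃ k, p ≤ β * L * v k ∧ W k < c * L * v k) :
    (p ≤ β * L * v (dec β c v W p L) ∧ W (dec β c v W p L) < c * L * v (dec β c v W p L)) ∧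
      ∀ k, p ≤ β * L * v k → v k < v (dec β c v W p L) → c * L * v k ≤ W k := by
  classical
  have h' : (univ.filter fun k => p ≤ β * L * v k ∧ W k < c * L * v k).Nonempty := by
    obtain ⟨k, hk⟩ := h
    exact ⟨k, mem_filter.mpr ⟨mem_univ _, hk⟩⟩
  rw [dec, dif_pos h']
  obtain ⟨h1, h2⟩ := (exists_min_image _ v h').choose_spec
  refine ⟨(mem_filter.mp h1).2, fun k hk hlt => ?_⟩
  by_contra hcon
  exact absurd (h2 k (mem_filter.mpr ⟨mem_univ _, hk, not_le.mp hcon⟩)) (not_le.mpr hlt)

/-- The work on each machine after `j` tasks. -/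
noncomputable def hist (β c : ℝ) (v : Fin (n + 1) → ℝ) (w : ℕ → ℝ) : ℕ → Fin (n + 1) → ℝ
  | 0 => fun _ => 0
  | j + 1 => fun i => hist β c v w j i +
      if dec β c v (hist β c v w j) (w j) (opt v (pre w (j + 1))) = i then w j else 0

theorem hist_congr (β c : ℝ) (v : Fin (n + 1) → ℝ) {w w' : ℕ → ℝ} (j : ℕ)
    (h : ∀ i < j, w i = w' i) : hist β c v w j = hist β c v w' j := by
  induction j with
  | zero => rfl
  | succ j ih =>
    funext i
    simp only [hist]
    rw [ih fun i hi => h i (by omega), h j (by omega), pre_congr h]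

/-- The algorithm. -/
noncomputable def alg (β c : ℝ) : Alg := fun _ v σ =>
  dec β c v (hist β c v (fun j => σ.getD j 0) (σ.length - 1)) (σ.getD (σ.length - 1) 0) (opt v σ)

theorem alg_pre (β c : ℝ) (v : Fin (n + 1) → ℝ) (w : ℕ → ℝ) (j : ℕ) :
    alg β c n v (pre w (j + 1)) =
      dec β c v (hist β c v w j) (w j) (opt v (pre w (j + 1))) := by
  have h : ∀ i < j + 1, (pre w (j + 1)).getD i 0 = w i := fun i hi => by
    simp [pre, List.getElem?_range hi]
  rw [alg, length_pre, Nat.add_sub_cancel, h j (by omega),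
    hist_congr β c v j fun i hi => h i (by omega)]

theorem hist_eq (β c : ℝ) (v : Fin (n + 1) → ℝ) (w : ℕ → ℝ) (j : ℕ) :
    hist β c v w j = work w (fun j => alg β c n v (pre w (j + 1))) j := by
  induction j with
  | zero => funext i; simp [hist, work]
  | succ j ih =>
    funext i
    rw [work_succ, ← ih, alg_pre]
    rfl

theorem alg_competitive {β : ℝ} (hβ : 1 < β) {v : Fin (n + 1) → ℝ} (hv : ∀ i, 0 < v i)
    (w : ℕ → ℝ) (N : ℕ) (hw : ∀ j < N, 0 < w j) :
    cost (alg β (β / Real.log β)) v (pre w N) ≤ (β / Real.log β + β) * opt v (pre w N) := by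
  set c := β / Real.log β with hc
  set α : ℕ → Fin (n + 1) := fun j => alg β c n v (pre w (j + 1)) with hα
  have hβ0 : 0 < β := by linarith
  have hc0 : 0 < c := div_pos hβ0 (Real.log_pos hβ)
  have hαj : ∀ j, α j = dec β c v (work w α j) (w j) (opt v (pre w (j + 1))) := fun j => by
    rw [hα, ← hist_eq, ← alg_pre]
  have ok : ∀ f < N, ∃ k, w f ≤ β * opt v (pre w (f + 1)) * v k ∧
      work w α f k < c * opt v (pre w (f + 1)) * v k := by
    intro f
    induction f using Nat.strong_induction_on with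
    | _ f ih =>
      intro hf
      by_contra hcon
      push Not at hcon
      refine no_failure hv (fun j hj => hw j (by omega)) hβ (α := α) (fun j hj k hk hlt => ?_) hcon
      refine (dec_spec (ih j hj (by omega))).2 k hk ?_
      rwa [← hαj]
  have bound : ∀ M ≤ N, ∀ i, work w α M i ≤ (c + β) * opt v (pre w M) * v i := by
    intro M
    induction M with
    | zero =>
      intro _ i
      have := opt_nonneg hv (w := w) (N := 0) (by simp)
      have h2 := hv i
      rw [work, sum_range_zero]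
      positivity
    | succ M ih =>
      intro hM i
      rw [work_succ]
      split_ifs with h
      · have := (dec_spec (ok M (by omega))).1
        rw [← hαj, h] at this
        linarith [this.1, this.2]
      · rw [add_zero]
        refine (ih (by omega) i).trans (mul_le_mul_of_nonneg_right (mul_le_mul_of_nonneg_left
          (opt_mono hv (Nat.le_succ M) fun j hj => (hw j (by omega)).le) (by positivity))
          (hv i).le)
  rw [cost_pre]
  exact ciSup_le fun i => (div_le_iff₀ (hv i)).mpr (bound N le_rfl i)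

end Pool.Agent.Lib.MP_7a6e05_lc
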